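import Pool.Agent.H88.CL.Basic

/-! Closing lemma on the torus, row ITB: the inverse of the derivative of an iterate. -/

set_option autoImplicit false

open Pool.Agent.H88.CL Set Function Topology Metric Filter

namespace Pool.Agent.H23.CL

theorem norm_fderiv_iterate {d : ℕ} {L : ℝ} {F : E d → E d} (hF : Differentiable ℝ F)
    (hL : 0 ≤ L) (hb : ∀ x, ‖fderiv ℝ F x‖ ≤ L) (l : ℕ) (x : E d) :
    ‖fderiv ℝ F^[l] x‖ ≤ L ^ l := by
  induction l generalizing x with
  | zero =>
    rw [iterate_zero, pow_zero, fderiv_id]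
    exact ContinuousLinearMap.norm_id_le
  | succ l ih =>
    rw [iterate_succ, fderiv_comp x (hF.iterate l _) (hF x), pow_succ]
    exact (ContinuousLinearMap.opNorm_comp_le _ _).trans
      (mul_le_mul (ih _) (hb x) (norm_nonneg _) (pow_nonneg hL l))

theorem pf_ITB (_h : T_ITA) : T_ITB := by
  intro d L F F' hC l b
  have hF : Differentiable ℝ F := hC.c2.differentiable (by norm_num)
  have hF' : Differentiable ℝ F' := hC.c2'.differentiable (by norm_num)
  have hl := hF.iterate l
  have hl' := hF'.iterate l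
  have e1 : F'^[l] ∘ F^[l] = id := funext fun x => iter_li hC.toIsLift l x
  have e2 : F^[l] ∘ F'^[l] = id := funext fun x => iter_ri hC.toIsLift l x
  have h1 : (fderiv ℝ F'^[l] (F^[l] b)).comp (fderiv ℝ F^[l] b) = ContinuousLinearMap.id ℝ _ := by
    rw [← fderiv_comp b (hl' _) (hl b), e1, fderiv_id]
  have h2 : (fderiv ℝ F^[l] b).comp (fderiv ℝ F'^[l] (F^[l] b)) = ContinuousLinearMap.id ℝ _ := by
    have h3 := fderiv_comp (F^[l] b) (hl (F'^[l] (F^[l] b))) (hl' (F^[l] b))
    rw [iter_li hC.toIsLift l b] at h3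
    rw [← h3, e2, fderiv_id]
  refine ⟨fderiv ℝ F'^[l] (F^[l] b), norm_fderiv_iterate hF' hC.pos.le hC.b' l _, fun x => ?_,
    fun x => ?_⟩
  · exact DFunLike.congr_fun h1 x
  · exact DFunLike.congr_fun h2 x

end Pool.Agent.H23.CL
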