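import Pool.Agent.H88.CL.Basic

/-! Closing lemma on the torus, row LFB: lifts define diffeomorphisms of the torus. -/

set_option autoImplicit false

open Pool.Agent.H88.CL Set Function Topology Metric Filter

namespace Pool.Agent.H23.CL

/-- the map of the torus with the lift `G` -/
noncomputable def gf {d : ℕ} (G : E d → E d) (t : Tor d) : Tor d :=
  mk d (G (Classical.choose (mk_surj t)))

theorem gf_mk {d : ℕ} {G : E d → E d} (hG : ∀ x, ∀ z ∈ Lat d, G (x + z) - G x ∈ Lat d)
    (x : E d) : gf G (mk d x) = mk d (G x) := by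
  have h := Classical.choose_spec (mk_surj (mk d x))
  unfold gf
  set y := Classical.choose (mk_surj (mk d x)) with hy
  have h1 : y - x ∈ Lat d := mk_eq.1 h
  have h2 := hG x (y - x) h1
  rw [add_sub_cancel] at h2
  exact mk_eq.2 h2

theorem pf_LFB : T_LFB := by
  intro d G G' h
  have h1 := fun x => gf_mk h.per x
  have h2 := fun x => gf_mk h.per' x
  refine ⟨⟨gf G, gf G', ?_, ?_⟩, ⟨⟨G, h.c2, h1⟩, ⟨G', h.c2', h2⟩⟩, h1⟩
  · intro t
    obtain ⟨x, rfl⟩ := mk_surj t
    rw [h1, h2, h.li]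
  · intro t
    obtain ⟨x, rfl⟩ := mk_surj t
    rw [h2, h1, h.ri]

end Pool.Agent.H23.CL
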